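import Pool.Agent.Q245.Vl.Mob

set_option autoImplicit false
set_option maxHeartbeats 1000000

namespace Pool.Agent.Q245.Vl

open NumberField Height IsDedekindDomain IntermediateField Pool.Agent.Q245.Vk

/-- descent from `K = F(s)`, `s² = δ`, to `F` -/
theorem down {F K : Type} [Field F] [NumberField F] [Field K] [NumberField K] [Algebra F K]
    (δ : ℤ) (hδ : δ ≠ 0) (s : K) (hs : s ^ 2 = δ) (hgen : Algebra.adjoin F {s} = ⊤)
    (A : Set (FinitePlace F)) (hA : A.Finite) (B : Set (FinitePlace K))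
    (hAB : ∀ (v : HeightOneSpectrum (𝓞 F)) (w : HeightOneSpectrum (𝓞 K)),
      w.asIdeal.LiesOver v.asIdeal → FinitePlace.mk w ∈ B → FinitePlace.mk v ∈ A)
    (y : F) (ε C : ℝ)
    (h : (1 - ε) * logHeight₁ (algebraMap F K y) ≤ ∑ᶠ w ∈ B, lN w + Real.log |(discr K : ℝ)|
      + C * Module.finrank ℚ K) :
    (1 - ε) * logHeight₁ y ≤ ∑ᶠ v ∈ A, lN v + Real.log |(discr F : ℝ)|
      + (C + Real.log (4 * δ.natAbs)) * Module.finrank ℚ F := by
  have hfd : FiniteDimensional F K := Module.Finite.of_restrictScalars_finite ℚ F K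
  have h1 := (sum_up A hA B hAB).2
  have h2 := disc_up δ hδ s hs hgen
  have hm0 : (0 : ℝ) < (Module.finrank F K : ℝ) := by exact_mod_cast Module.finrank_pos
  have h3 : (Module.finrank ℚ K : ℝ) = (Module.finrank ℚ F : ℝ) * (Module.finrank F K : ℝ) := by
    exact_mod_cast (Module.finrank_mul_finrank ℚ F K).symm
  rw [ht_ext, h3] at h
  rw [h3] at h2
  have h4 : (Module.finrank F K : ℝ) * ((1 - ε) * logHeight₁ y) ≤
      (Module.finrank F K : ℝ) * (∑ᶠ v ∈ A, lN v + Real.log |(discr F : ℝ)|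
      + (C + Real.log (4 * δ.natAbs)) * Module.finrank ℚ F) := by
    nlinarith
  exact le_of_mul_le_mul_left h4 hm0

/-- ascent from `F` to `K` -/
theorem up {F K : Type} [Field F] [NumberField F] [Field K] [NumberField K] [Algebra F K]
    (A : Set (FinitePlace F)) (hA : A.Finite) (B : Set (FinitePlace K)) (hB : B.Finite)
    (hAB : ∀ (v : HeightOneSpectrum (𝓞 F)) (w : HeightOneSpectrum (𝓞 K)),
      w.asIdeal.LiesOver v.asIdeal → FinitePlace.mk v ∈ A → FinitePlace.mk w ∈ B)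
    (y : F) (ε C : ℝ)
    (h : (1 - ε) * logHeight₁ y ≤ ∑ᶠ v ∈ A, lN v + Real.log |(discr F : ℝ)|
      + C * Module.finrank ℚ F) :
    (1 - ε) * logHeight₁ (algebraMap F K y) ≤ ∑ᶠ w ∈ B, lN w + Real.log |(discr K : ℝ)|
      + C * Module.finrank ℚ K := by
  have hfd : FiniteDimensional F K := Module.Finite.of_restrictScalars_finite ℚ F K
  have h1 := rel A hA B hB hAB
  have hm0 : (0 : ℝ) < (Module.finrank F K : ℝ) := by exact_mod_cast Module.finrank_pos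
  have h3 : (Module.finrank ℚ K : ℝ) = (Module.finrank ℚ F : ℝ) * (Module.finrank F K : ℝ) := by
    exact_mod_cast (Module.finrank_mul_finrank ℚ F K).symm
  rw [ht_ext, h3]
  have h4 := mul_le_mul_of_nonneg_left h hm0.le
  nlinarith

/-- from `x = (t + s) / (t - s)` to `t` -/
theorem to_t {K : Type} [Field K] [NumberField K] (δ : ℤ) (hδ : δ ≠ 0) (s t : K)
    (hs : s ^ 2 = δ) (ht : t ^ 2 ≠ δ) (ε C : ℝ) (hε0 : 0 < ε) (hε : ε < 1)
    (h : (1 - ε) * logHeight₁ ((t + s) / (t - s)) ≤ ∑ᶠ w ∈ S0 ((t + s) / (t - s)), lN w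
      + Real.log |(discr K : ℝ)| + C * Module.finrank ℚ K) :
    (1 - ε) * logHeight₁ t ≤ ∑ᶠ w ∈ Sm δ t, lN w + Real.log |(discr K : ℝ)|
      + (C + 3 * Real.log 2 + Real.log |(δ : ℝ)| + Real.log (2 * δ.natAbs : ℕ)) *
        Module.finrank ℚ K := by
  obtain ⟨-, h1⟩ := mob_height δ hδ s t hs ht
  have hc : 2 * δ.natAbs ≠ 0 := by
    have := Int.natAbs_ne_zero.mpr hδ
    omega
  obtain ⟨-, h2⟩ := cmp (S0 ((t + s) / (t - s))) (Sm δ t) (Sm_finite (sub_ne_zero.mpr ht)) hc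
    (fun w hw hwc => (mob_place δ hδ s t hs ht w hwc).mp hw)
  have hn : (0 : ℝ) ≤ Module.finrank ℚ K := by positivity
  have hM : 0 ≤ 3 * Real.log 2 + Real.log |(δ : ℝ)| := by
    have h5 : (1 : ℝ) ≤ |(δ : ℝ)| := by exact_mod_cast Int.one_le_abs hδ
    have := Real.log_nonneg h5
    have := Real.log_nonneg (show (1 : ℝ) ≤ 2 by norm_num)
    linarith
  have h3 := mul_le_mul_of_nonneg_left h1 (show 0 ≤ 1 - ε by linarith)
  have h4 : (1 - ε) * ((Module.finrank ℚ K : ℝ) * (3 * Real.log 2 + Real.log |(δ : ℝ)|)) ≤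
      (Module.finrank ℚ K : ℝ) * (3 * Real.log 2 + Real.log |(δ : ℝ)|) := by
    have : 0 ≤ (Module.finrank ℚ K : ℝ) * (3 * Real.log 2 + Real.log |(δ : ℝ)|) := by positivity
    nlinarith
  nlinarith

/-- from `t` to `x = (t + s) / (t - s)` -/
theorem to_x {K : Type} [Field K] [NumberField K] (δ : ℤ) (hδ : δ ≠ 0) (s t : K)
    (hs : s ^ 2 = δ) (ht : t ^ 2 ≠ δ) (hx0 : (t + s) / (t - s) ≠ 0) (hx1 : (t + s) / (t - s) ≠ 1)
    (ε C : ℝ) (hε0 : 0 < ε) (hε : ε < 1)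
    (h : (1 - ε) * logHeight₁ t ≤ ∑ᶠ w ∈ Sm δ t, lN w + Real.log |(discr K : ℝ)|
      + C * Module.finrank ℚ K) :
    (1 - ε) * logHeight₁ ((t + s) / (t - s)) ≤ ∑ᶠ w ∈ S0 ((t + s) / (t - s)), lN w
      + Real.log |(discr K : ℝ)|
      + (C + 3 * Real.log 2 + Real.log |(δ : ℝ)| + Real.log (2 * δ.natAbs : ℕ)) *
        Module.finrank ℚ K := by
  obtain ⟨h1, -⟩ := mob_height δ hδ s t hs ht
  have hc : 2 * δ.natAbs ≠ 0 := by
    have := Int.natAbs_ne_zero.mpr hδ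
    omega
  obtain ⟨-, h2⟩ := cmp (Sm δ t) (S0 ((t + s) / (t - s))) (S0_finite hx0 hx1) hc
    (fun w hw hwc => (mob_place δ hδ s t hs ht w hwc).mpr hw)
  have hn : (0 : ℝ) ≤ Module.finrank ℚ K := by positivity
  have hM : 0 ≤ 3 * Real.log 2 + Real.log |(δ : ℝ)| := by
    have h5 : (1 : ℝ) ≤ |(δ : ℝ)| := by exact_mod_cast Int.one_le_abs hδ
    have := Real.log_nonneg h5
    have := Real.log_nonneg (show (1 : ℝ) ≤ 2 by norm_num)
    linarith
  have h3 := mul_le_mul_of_nonneg_left h1 (show 0 ≤ 1 - ε by linarith)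
  have h4 : (1 - ε) * ((Module.finrank ℚ K : ℝ) * (3 * Real.log 2 + Real.log |(δ : ℝ)|)) ≤
      (Module.finrank ℚ K : ℝ) * (3 * Real.log 2 + Real.log |(δ : ℝ)|) := by
    have : 0 ≤ (Module.finrank ℚ K : ℝ) * (3 * Real.log 2 + Real.log |(δ : ℝ)|) := by positivity
    nlinarith
  nlinarith

end Pool.Agent.Q245.Vl
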