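import Pool.Agent.Q245.Vl.Up

set_option autoImplicit false
set_option maxHeartbeats 1000000

namespace Pool.Agent.Q245.Vl

open NumberField Height IsDedekindDomain Pool.Agent.Q245.Vk

variable {K : Type} [Field K] [NumberField K]

lemma bad_finite {c : ℕ} (hc : c ≠ 0) : {w : FinitePlace K | w (c : K) ≠ 1}.Finite :=
  fin_ne_one (by exact_mod_cast hc)

lemma bad_sum {c : ℕ} (hc : c ≠ 0) :
    ∑ᶠ w ∈ {w : FinitePlace K | w (c : K) ≠ 1}, lN w ≤ Module.finrank ℚ K * Real.log c := by
  have hcK : (c : K) ≠ 0 := by exact_mod_cast hc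
  have h1 := sum_log_nat (K := K) hc
  have h2 : ∑ᶠ v : FinitePlace K, -Real.log (v (c : K)) = Module.finrank ℚ K * Real.log c := by
    rw [finsum_neg_distrib, h1, neg_neg]
  rw [← h2, finsum_mem_eq_finite_toFinset_sum _ (bad_finite hc)]
  have hsupp : (Function.support fun v : FinitePlace K => -Real.log (v (c : K))) ⊆
      ((bad_finite (K := K) hc).toFinset : Set (FinitePlace K)) := by
    intro v hv
    rw [Function.mem_support] at hv
    simp only [Set.Finite.coe_toFinset, Set.mem_ofPred_eq]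
    intro h
    apply hv
    rw [h, Real.log_one, neg_zero]
  rw [finsum_eq_sum_of_support_subset _ hsupp]
  refine Finset.sum_le_sum fun v hv => ?_
  have hv' : v (c : K) ≠ 1 := by
    have := (bad_finite (K := K) hc).mem_toFinset.mp hv
    exact this
  have hlt : v (c : K) < 1 := lt_of_le_of_ne (nat_le v c) hv'
  exact gap_log v hcK hlt

/-- comparison of two counting functions outside the primes dividing `c` -/
lemma cmp (A B : Set (FinitePlace K)) (hB : B.Finite) {c : ℕ} (hc : c ≠ 0)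
    (h : ∀ w ∈ A, w (c : K) = 1 → w ∈ B) :
    A.Finite ∧ ∑ᶠ w ∈ A, lN w ≤ ∑ᶠ w ∈ B, lN w + Module.finrank ℚ K * Real.log c := by
  classical
  have hsub : A ⊆ B ∪ {w : FinitePlace K | w (c : K) ≠ 1} := by
    intro w hw
    by_cases h1 : w (c : K) = 1
    · exact Or.inl (h w hw h1)
    · exact Or.inr h1
  have hA : A.Finite := (hB.union (bad_finite hc)).subset hsub
  refine ⟨hA, ?_⟩
  have h1 := bad_sum (K := K) hc
  rw [finsum_mem_eq_finite_toFinset_sum _ (bad_finite hc)] at h1
  rw [finsum_mem_eq_finite_toFinset_sum _ hA, finsum_mem_eq_finite_toFinset_sum _ hB]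
  have h2 : ∑ w ∈ hA.toFinset, lN w ≤ ∑ w ∈ hB.toFinset ∪ (bad_finite (K := K) hc).toFinset,
      lN w := by
    refine Finset.sum_le_sum_of_subset_of_nonneg ?_ fun v _ _ => lN_nonneg v
    intro w hw
    rw [Finset.mem_union, Set.Finite.mem_toFinset, Set.Finite.mem_toFinset]
    exact hsub (hA.mem_toFinset.mp hw)
  have h3 := Finset.sum_union_inter (s₁ := hB.toFinset) (s₂ := (bad_finite (K := K) hc).toFinset)
    (f := fun w : FinitePlace K => lN w)
  have h4 : 0 ≤ ∑ w ∈ hB.toFinset ∩ (bad_finite (K := K) hc).toFinset, lN w :=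
    Finset.sum_nonneg fun v _ => lN_nonneg v
  linarith

lemma height_s (δ : ℤ) (hδ : δ ≠ 0) (s : K) (hs : s ^ 2 = δ) :
    2 * logHeight₁ s = Module.finrank ℚ K * Real.log |(δ : ℝ)| := by
  rw [← height_int hδ, ← hs, logHeight₁_pow]
  norm_num

lemma height_two : logHeight₁ (2 : K) = Module.finrank ℚ K * Real.log 2 := by
  have := height_int (K := K) (δ := 2) (by norm_num)
  push_cast at this
  rw [this]
  norm_num

/-- heights of `t` and `(t + s) / (t - s)` -/
lemma mob_height (δ : ℤ) (hδ : δ ≠ 0) (s t : K) (hs : s ^ 2 = δ) (ht : t ^ 2 ≠ δ) :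
    logHeight₁ ((t + s) / (t - s)) ≤ logHeight₁ t +
      Module.finrank ℚ K * (3 * Real.log 2 + Real.log |(δ : ℝ)|) ∧
    logHeight₁ t ≤ logHeight₁ ((t + s) / (t - s)) +
      Module.finrank ℚ K * (3 * Real.log 2 + Real.log |(δ : ℝ)|) := by
  have hts : t - s ≠ 0 := by
    intro h
    apply ht
    rw [sub_eq_zero.mp h, hs]
  have hs0 : s ≠ 0 := by
    rintro rfl
    rw [zero_pow two_ne_zero] at hs
    exact hδ (by exact_mod_cast hs.symm)
  have h2 : (2 : K) ≠ 0 := two_ne_zero
  set x : K := (t + s) / (t - s) with hx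
  have hx1 : x - 1 = 2 * s / (t - s) := by
    rw [hx]; field_simp; ring
  have hx1' : x - 1 ≠ 0 := by
    rw [hx1]
    exact div_ne_zero (mul_ne_zero h2 hs0) hts
  have hw : (totalWeight K : ℝ) = Module.finrank ℚ K := by
    exact_mod_cast totalWeight_eq_finrank (K := K)
  have e0 := height_s δ hδ s hs
  have hl : 0 ≤ (Module.finrank ℚ K : ℝ) * Real.log |(δ : ℝ)| := by
    have : (1 : ℝ) ≤ |(δ : ℝ)| := by exact_mod_cast Int.one_le_abs hδ
    have := Real.log_nonneg this
    positivity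
  have e2 := height_two (K := K)
  constructor
  · have e1 : x = 1 + 2 * s * (t - s)⁻¹ := by
      have := hx1
      rw [div_eq_mul_inv] at this
      linear_combination this
    have a1 := logHeight₁_add_le (1 : K) (2 * s * (t - s)⁻¹)
    have a2 := logHeight₁_mul_le (2 * s) (t - s)⁻¹
    have a3 := logHeight₁_mul_le (2 : K) s
    have a4 := logHeight₁_sub_le t s
    rw [← e1, logHeight₁_one, hw] at a1
    rw [logHeight₁_inv] at a2
    rw [hw] at a4
    linarith
  · have e1 : t = s * (1 + 2 * (x - 1)⁻¹) := by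
      rw [hx1]
      field_simp
      ring
    have a1 := logHeight₁_mul_le s (1 + 2 * (x - 1)⁻¹)
    have a2 := logHeight₁_add_le (1 : K) (2 * (x - 1)⁻¹)
    have a3 := logHeight₁_mul_le (2 : K) (x - 1)⁻¹
    have a4 := logHeight₁_sub_le x 1
    rw [← e1] at a1
    rw [logHeight₁_one, hw] at a2
    rw [logHeight₁_inv] at a3
    rw [logHeight₁_one, hw] at a4
    linarith

/-- the places of bad reduction of `t` and `(t + s) / (t - s)` -/
lemma mob_place (δ : ℤ) (hδ : δ ≠ 0) (s t : K) (hs : s ^ 2 = δ) (ht : t ^ 2 ≠ δ)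
    (w : FinitePlace K) (hw : w ((2 * δ.natAbs : ℕ) : K) = 1) :
    w ∈ S0 ((t + s) / (t - s)) ↔ w ∈ Sm δ t := by
  have hprod : t ^ 2 - (δ : K) = (t - s) * (t + s) := by rw [← hs]; ring
  have ht0 : t ^ 2 - (δ : K) ≠ 0 := sub_ne_zero.mpr ht
  have hts : t - s ≠ 0 := left_ne_zero_of_mul (hprod ▸ ht0)
  have hts' : t + s ≠ 0 := right_ne_zero_of_mul (hprod ▸ ht0)
  have hw2δ : w (2 : K) = 1 ∧ w (δ : K) = 1 := by
    push_cast at hw
    rw [map_mul, v_natAbs] at hw
    have h1 := nat_le w 2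
    push_cast at h1
    exact eq_one_of_mul (fin_nonneg _ _) h1 (fin_nonneg _ _) (int_le w δ) hw
  obtain ⟨hw2, hwδ⟩ := hw2δ
  have hws : w s = 1 := by
    have h1 : w s ^ 2 = 1 := by rw [← map_pow, hs, hwδ]
    exact (pow_eq_one_iff_of_nonneg (fin_nonneg w s) two_ne_zero).mp h1
  have e1 : 1 - (t + s) / (t - s) = -(2 * s) / (t - s) := by
    field_simp; ring
  have e2 : w (1 - (t + s) / (t - s)) = (w (t - s))⁻¹ := by
    rw [e1, map_div₀, fin_neg, map_mul, hw2, hws, one_mul, one_div]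
  have hpos : 0 < w (t - s) := w.1.pos hts
  have hpos' : 0 < w (t + s) := w.1.pos hts'
  have hpr : w (t ^ 2 - (δ : K)) = w (t - s) * w (t + s) := by rw [hprod, map_mul]
  constructor
  · intro h
    by_contra hcon
    apply h
    have hcon' : ¬ (1 < w t ∨ w (t ^ 2 - (δ : K)) < 1) := hcon
    rw [not_or, not_lt, not_lt] at hcon'
    obtain ⟨h1, h2⟩ := hcon'
    have a1 : w (t - s) ≤ 1 := fin_sub w t s h1 hws.le
    have a2 : w (t + s) ≤ 1 := fin_add w t s h1 hws.le
    have a3 : w (t - s) * w (t + s) = 1 := by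
      rw [hpr] at h2
      nlinarith
    obtain ⟨b1, b2⟩ := eq_one_of_mul hpos.le a1 hpos'.le a2 a3
    constructor
    · rw [map_div₀, b1, b2, div_one]
    · rw [e2, b1, inv_one]
  · intro h hcon
    obtain ⟨h1, h2⟩ := hcon
    rw [e2, inv_eq_one] at h2
    rw [map_div₀, h2, div_one] at h1
    rcases h with h | h
    · have : w ((t - s) + s) ≤ 1 := fin_add w (t - s) s h2.le hws.le
      rw [sub_add_cancel] at this
      linarith
    · have h' : w (t ^ 2 - (δ : K)) < 1 := h
      rw [hpr, h1, h2] at h'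
      linarith

end Pool.Agent.Q245.Vl
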