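import Pool.Agent.Q245.Vl.Quad

set_option autoImplicit false
set_option maxHeartbeats 1000000

namespace Pool.Agent.Q245.Vl

open NumberField Height IsDedekindDomain IntermediateField Pool.Agent.Q245.Vk

section

variable {F K : Type} [Field F] [NumberField F] [Field K] [NumberField K] [Algebra F K]

/-- the inequality for the elements of norm one implies the inequality for `∞ + {t² = δ}` -/
theorem Fm_of_norm (δ : ℤ) (hδ : δ ≠ 0) (s : K) (hs : s ^ 2 = δ)
    (hgen : Algebra.adjoin F {s} = ⊤) (hsF : s ∉ (algebraMap F K).range)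
    (h : F0 K (fun z => Algebra.norm F z = 1)) : Fm F δ := by
  intro ε hε
  by_cases hε1 : 1 ≤ ε
  · refine ⟨0, fun x _ => ?_⟩
    have a1 := sum_nonneg (Sm δ x)
    have a3 : 0 ≤ logHeight₁ x := zero_le_logHeight₁ x
    have a4 : (1 - ε) * logHeight₁ x ≤ 0 := mul_nonpos_of_nonpos_of_nonneg (by linarith) a3
    linarith
  push Not at hε1
  obtain ⟨C, hC⟩ := h ε hε
  refine ⟨Real.log |(discr F : ℝ)| + ((|C| + 3 * Real.log 2 + Real.log |(δ : ℝ)| +
    Real.log (2 * δ.natAbs : ℕ)) + Real.log (4 * δ.natAbs)) * Module.finrank ℚ F,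
    fun t ht => ?_⟩
  have hT : (algebraMap F K t) ^ 2 ≠ (δ : K) := by
    intro h1
    apply ht
    apply (algebraMap F K).injective
    rw [map_pow, h1, map_intCast]
  set T : K := algebraMap F K t with hTdef
  have hs0 : s ≠ 0 := by
    rintro rfl
    apply hδ
    have : (δ : K) = 0 := by rw [← hs]; ring
    exact_mod_cast this
  have hp : T + s ≠ 0 := by
    intro h1
    apply hT
    rw [← hs]
    have : T = -s := by linear_combination h1
    rw [this]
    ring
  have hm : T - s ≠ 0 := by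
    intro h1
    apply hT
    rw [← hs]
    have : T = s := by linear_combination h1
    rw [this]
  have hx0 : (T + s) / (T - s) ≠ 0 := div_ne_zero hp hm
  have hx1 : (T + s) / (T - s) ≠ 1 := by
    rw [Ne, div_eq_one_iff_eq hm]
    intro h1
    have : (2 : K) * s = 0 := by linear_combination h1
    rcases mul_eq_zero.mp this with h2 | h2
    · exact two_ne_zero h2
    · exact hs0 h2
  have hnorm : Algebra.norm F ((T + s) / (T - s)) = 1 := by
    have e1 := norm_eq (F := F) δ s hs hgen hsF t 1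
    have e2 := norm_eq (F := F) δ s hs hgen hsF t (-1)
    rw [map_one, one_mul] at e1
    rw [map_neg, map_one, neg_one_mul, ← sub_eq_add_neg] at e2
    rw [← hTdef] at e1 e2
    have e3 : t ^ 2 - (δ : F) ≠ 0 := sub_ne_zero.mpr ht
    have e4 : Algebra.norm F ((T + s) / (T - s)) * Algebra.norm F (T - s) =
        Algebra.norm F (T + s) := by
      rw [← map_mul, div_mul_cancel₀ _ hm]
    rw [e1, e2, one_pow, neg_one_sq, mul_one] at e4
    exact mul_right_cancel₀ e3 (by rw [e4, one_mul])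
  have a := hC _ hnorm hx0 hx1
  have a2 := logdisc_nonneg K
  have hn : (1 : ℝ) ≤ Module.finrank ℚ K := by exact_mod_cast Module.finrank_pos
  have a3 : (1 - ε) * logHeight₁ ((T + s) / (T - s)) ≤ ∑ᶠ w ∈ S0 ((T + s) / (T - s)), lN w
      + Real.log |(discr K : ℝ)| + |C| * Module.finrank ℚ K := by
    have := le_abs_self C
    nlinarith [abs_nonneg C]
  have a4 := to_t δ hδ s T hs hT ε |C| hε hε1 a3
  have a5 := down δ hδ s hs hgen (Sm δ t) (Sm_finite (sub_ne_zero.mpr ht)) (Sm δ T) (by
    intro v w hwv hw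
    rcases hw with a | a
    · left
      exact (over_gt v w _).mp a
    · right
      have e1 : T ^ 2 - (δ : K) = algebraMap F K (t ^ 2 - (δ : F)) := by
        rw [map_sub, map_pow, map_intCast]
      rw [e1] at a
      exact (over_lt v w _).mp a) t ε _ a4
  linarith

/-- the converse -/
theorem norm_of_Fm (δ : ℤ) (hδ : δ ≠ 0) (s : K) (hs : s ^ 2 = δ)
    (hgen : Algebra.adjoin F {s} = ⊤) (hsF : s ∉ (algebraMap F K).range)
    (h : Fm F δ) : F0 K (fun z => Algebra.norm F z = 1) := by
  intro ε hε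
  by_cases hε1 : 1 ≤ ε
  · refine ⟨0, fun x _ _ _ => ?_⟩
    have a1 := sum_nonneg (S0 x)
    have a3 : 0 ≤ logHeight₁ x := zero_le_logHeight₁ x
    have a4 : (1 - ε) * logHeight₁ x ≤ 0 := mul_nonpos_of_nonpos_of_nonneg (by linarith) a3
    linarith
  push Not at hε1
  obtain ⟨C, hC⟩ := h ε hε
  refine ⟨Real.log |(discr K : ℝ)| + (|C| + 3 * Real.log 2 + Real.log |(δ : ℝ)| +
    Real.log (2 * δ.natAbs : ℕ)) * Module.finrank ℚ K, fun z hz hz0 hz1 => ?_⟩
  obtain ⟨p, q, hpq⟩ := coords (F := F) δ s hs hgen z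
  have hN : p ^ 2 - δ * q ^ 2 = 1 := by
    rw [← norm_eq (F := F) δ s hs hgen hsF p q, ← hpq, hz]
  have hδF : (δ : F) ≠ 0 := by exact_mod_cast hδ
  have hp1 : p - 1 ≠ 0 := by
    intro h1
    have h2 : p = 1 := by linear_combination h1
    have h3 : (δ : F) * q ^ 2 = 0 := by rw [h2] at hN; linear_combination -hN
    have h4 : q = 0 := by
      rcases mul_eq_zero.mp h3 with h5 | h5
      · exact absurd h5 hδF
      · exact pow_eq_zero_iff (two_ne_zero) |>.mp h5
    apply hz1
    rw [hpq, h2, h4]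
    simp
  set t : F := q * δ / (p - 1) with htdef
  have hti : ∀ t : F, t ^ 2 ≠ (δ : F) := by
    intro t h1
    have h2 : (algebraMap F K t) ^ 2 = s ^ 2 := by
      rw [hs, ← map_pow, h1, map_intCast]
    rcases sq_eq_sq_iff_eq_or_eq_neg.mp h2 with h3 | h3
    · exact hsF ⟨t, h3⟩
    · exact hsF ⟨-t, by rw [map_neg, h3, neg_neg]⟩
  have ht := hti t
  set T : K := algebraMap F K t with hTdef
  have hT : T ^ 2 ≠ (δ : K) := by
    intro h1
    apply ht
    apply (algebraMap F K).injective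
    rw [map_pow, ← hTdef, h1, map_intCast]
  have hm : T - s ≠ 0 := by
    intro h1
    apply hT
    rw [← hs]
    have : T = s := by linear_combination h1
    rw [this]
  have hzT : (T + s) / (T - s) = z := by
    rw [div_eq_iff hm]
    have hp1K : algebraMap F K p - 1 ≠ 0 := by
      intro h1
      apply hp1
      apply (algebraMap F K).injective
      rw [map_sub, map_one, map_zero, h1]
    have hTm : T * (algebraMap F K p - 1) = algebraMap F K q * δ := by
      rw [hTdef, htdef, map_div₀, map_mul, map_intCast, map_sub, map_one]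
      field_simp
    have hNK : (algebraMap F K p) ^ 2 - δ * (algebraMap F K q) ^ 2 = 1 := by
      have := congrArg (algebraMap F K) hN
      rwa [map_sub, map_mul, map_pow, map_pow, map_intCast, map_one] at this
    apply mul_right_cancel₀ hp1K
    rw [hpq]
    linear_combination (1 - (algebraMap F K p + algebraMap F K q * s)) * hTm + s * hNK +
      algebraMap F K q * (algebraMap F K p - 1) * hs
  have a := hC t ht
  have a2 := logdisc_nonneg F
  have hn : (1 : ℝ) ≤ Module.finrank ℚ F := by exact_mod_cast Module.finrank_pos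
  have a3 : (1 - ε) * logHeight₁ t ≤ ∑ᶠ v ∈ Sm δ t, lN v + Real.log |(discr F : ℝ)| +
      |C| * Module.finrank ℚ F := by
    have := le_abs_self C
    nlinarith [abs_nonneg C]
  have a4 := up (K := K) (Sm δ t) (Sm_finite (sub_ne_zero.mpr ht)) (Sm δ T)
    (Sm_finite (sub_ne_zero.mpr hT)) (by
      intro v w hwv hv
      rcases hv with a | a
      · left
        exact (over_gt v w _).mpr a
      · right
        have e1 : T ^ 2 - (δ : K) = algebraMap F K (t ^ 2 - (δ : F)) := by
          rw [map_sub, map_pow, map_intCast]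
        rw [e1]
        exact (over_lt v w _).mpr a) t ε |C| a3
  have a5 := to_x δ hδ s T hs hT (by rw [hzT]; exact hz0) (by rw [hzT]; exact hz1) ε |C| hε hε1 a4
  rw [hzT] at a5
  linarith

/-- the theorem for the elements of norm one -/
theorem norm_iff (δ : ℤ) (j : ℕ) (m : ℤ) (hm : Odd m) (hδ : δ = 4 ^ j * m) (s : K)
    (hs : s ^ 2 = δ) (hgen : Algebra.adjoin F {s} = ⊤) (hsF : s ∉ (algebraMap F K).range) :
    F0 K (fun z => Algebra.norm F z = 1) ↔ F0 F (fun _ => True) := by
  have hδ0 : δ ≠ 0 := by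
    rw [hδ]
    have : m ≠ 0 := by
      rintro rfl
      exact absurd hm (by decide)
    positivity
  rw [← fixed F δ j m hm hδ]
  exact ⟨Fm_of_norm δ hδ0 s hs hgen hsF, norm_of_Fm δ hδ0 s hs hgen hsF⟩

end

/-- the height of a triple, relative to `K` -/
noncomputable def HT {K : Type} [Field K] [NumberField K] (x : Fin 3 → K) : ℝ := mulHeight x

/-- the radical of a triple -/
noncomputable def RD {K : Type} [Field K] [NumberField K] (x : Fin 3 → K) : ℝ :=
  ∏ᶠ (v : FinitePlace K) (_ : ∃ i j, v (x i) ≠ v (x j)),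
    (Ideal.absNorm v.maximalIdeal.asIdeal : ℝ)

/-- the abc inequality over the fixed field `K`, for the triples in `P` -/
def ABC (K : Type) [Field K] [NumberField K] (P : (Fin 3 → K) → Prop) : Prop :=
  ∀ ε : ℝ, 0 < ε → ∃ C : ℝ, ∀ x : Fin 3 → K, P x → x 0 + x 1 + x 2 = 0 → (∀ i, x i ≠ 0) →
    HT x ≤ C * RD x ^ (1 + ε)

lemma RD_eq {K : Type} [Field K] [NumberField K] (x : Fin 3 → K) (hs : x 0 + x 1 + x 2 = 0)
    (h0 : ∀ i, x i ≠ 0) : 0 < RD x ∧ Real.log (RD x) = ∑ᶠ v ∈ S0 (-x 0 / x 1), lN v := by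
  have hz0 : -x 0 / x 1 ≠ 0 := div_ne_zero (neg_ne_zero.mpr (h0 0)) (h0 1)
  have hz1 : -x 0 / x 1 ≠ 1 := by
    intro hh
    rw [div_eq_one_iff_eq (h0 1)] at hh
    apply h0 2
    linear_combination hs + hh
  have hfin := S0_finite hz0 hz1
  have e : RD x = ∏ v ∈ hfin.toFinset, (Ideal.absNorm v.maximalIdeal.asIdeal : ℝ) := by
    unfold RD
    rw [← finprod_mem_eq_finite_toFinset_prod
      (fun v : FinitePlace K => (Ideal.absNorm v.maximalIdeal.asIdeal : ℝ)) hfin]
    have := tri_bad x hs h0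
    refine finprod_congr fun v => ?_
    have hv : (∃ i j, v (x i) ≠ v (x j)) ↔ v ∈ S0 (-x 0 / x 1) := by
      rw [← this]
      rfl
    exact finprod_congr_Prop (propext hv) fun _ => rfl
  have hpos : ∀ v : FinitePlace K, (0 : ℝ) < (Ideal.absNorm v.maximalIdeal.asIdeal : ℝ) := by
    intro v
    have h : Ideal.absNorm v.maximalIdeal.asIdeal ≠ 0 :=
      fun h => v.maximalIdeal.ne_bot (Ideal.absNorm_eq_zero_iff.1 h)
    exact_mod_cast Nat.pos_of_ne_zero h
  rw [e, finsum_mem_eq_finite_toFinset_sum _ hfin]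
  exact ⟨Finset.prod_pos fun v _ => hpos v, Real.log_prod fun v _ => (hpos v).ne'⟩

theorem ABC_iff (K : Type) [Field K] [NumberField K] (P : (Fin 3 → K) → Prop) (P0 : K → Prop)
    (h1 : ∀ x : Fin 3 → K, (∀ i, x i ≠ 0) → x 0 + x 1 + x 2 = 0 → P x → P0 (-x 0 / x 1))
    (h2 : ∀ z : K, z ≠ 0 → P0 z → P ![-z, 1, z - 1]) :
    ABC K P ↔ F0 K P0 := by
  constructor
  · intro h ε hε
    by_cases hε1 : 1 ≤ ε
    · refine ⟨0, fun x _ _ _ => ?_⟩
      have a1 := sum_nonneg (S0 x)
      have a3 : 0 ≤ logHeight₁ x := zero_le_logHeight₁ x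
      have a4 : (1 - ε) * logHeight₁ x ≤ 0 := mul_nonpos_of_nonpos_of_nonneg (by linarith) a3
      linarith
    push Not at hε1
    obtain ⟨C, hC⟩ := h ε hε
    refine ⟨|Real.log (max C 1)|, fun z hz hz0 hz1 => ?_⟩
    have hne : ∀ i, (![-z, 1, z - 1] : Fin 3 → K) i ≠ 0 := by
      intro i
      fin_cases i
      · simpa using hz0
      · simp
      · simpa using sub_ne_zero.mpr hz1
    have hsum : (![-z, 1, z - 1] : Fin 3 → K) 0 + (![-z, 1, z - 1] : Fin 3 → K) 1 +
        (![-z, 1, z - 1] : Fin 3 → K) 2 = 0 := by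
      simp
    have hz' : -(![-z, 1, z - 1] : Fin 3 → K) 0 / (![-z, 1, z - 1] : Fin 3 → K) 1 = z := by simp
    have a := hC ![-z, 1, z - 1] (h2 z hz0 hz) hsum hne
    have b := tri_height _ hsum hne
    have c := RD_eq _ hsum hne
    rw [hz'] at b c
    have hC1 : (0 : ℝ) < max C 1 := lt_of_lt_of_le one_pos (le_max_right _ _)
    have hR := Real.rpow_pos_of_pos c.1 (1 + ε)
    have a' : HT ![-z, 1, z - 1] ≤ max C 1 * RD ![-z, 1, z - 1] ^ (1 + ε) :=
      a.trans (mul_le_mul_of_nonneg_right (le_max_left _ _) hR.le)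
    have d := Real.log_le_log (by exact mulHeight_pos _) a'
    rw [Real.log_mul hC1.ne' hR.ne', Real.log_rpow c.1, c.2] at d
    have a1 := sum_nonneg (S0 z)
    have b' : logHeight₁ z ≤ Real.log (HT ![-z, 1, z - 1]) := b.1
    have a3 : logHeight₁ z ≤ (1 + ε) * (∑ᶠ v ∈ S0 z, lN v) + Real.log (max C 1) := by linarith
    have a4 := mul_le_mul_of_nonneg_left a3 (show 0 ≤ 1 - ε by linarith)
    have a6 : (1 - ε) * Real.log (max C 1) ≤ |Real.log (max C 1)| := by
      have := le_abs_self (Real.log (max C 1))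
      have := abs_nonneg (Real.log (max C 1))
      nlinarith
    nlinarith [mul_nonneg (sq_nonneg ε) a1]
  · intro h ε hε
    set ε' : ℝ := ε / (1 + ε) with hε'
    have hpos : 0 < 1 + ε := by linarith
    obtain ⟨C, hC⟩ := h ε' (by positivity)
    refine ⟨Real.exp ((1 + ε) * C + Module.finrank ℚ K * Real.log 2), fun x hx hs h0 => ?_⟩
    have b := tri_height x hs h0
    have c := RD_eq x hs h0
    have hz0 : -x 0 / x 1 ≠ 0 := div_ne_zero (neg_ne_zero.mpr (h0 0)) (h0 1)
    have hz1 : -x 0 / x 1 ≠ 1 := by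
      intro hh
      rw [div_eq_one_iff_eq (h0 1)] at hh
      apply h0 2
      linear_combination hs + hh
    have a := hC (-x 0 / x 1) (h1 x h0 hs hx) hz0 hz1
    have e2 : 1 - ε' = 1 / (1 + ε) := by rw [hε']; field_simp; ring
    rw [e2, div_mul_eq_mul_div, one_mul, div_le_iff₀ hpos, ← c.2] at a
    have hR := Real.rpow_pos_of_pos c.1 (1 + ε)
    have hH : 0 < HT x := mulHeight_pos _
    rw [← Real.log_le_log_iff hH (by positivity), Real.log_mul (Real.exp_pos _).ne' hR.ne',
      Real.log_exp, Real.log_rpow c.1]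
    have b' : Real.log (HT x) ≤ logHeight₁ (-x 0 / x 1) + Module.finrank ℚ K * Real.log 2 := b.2
    linarith

/-- triples in a quadratic extension with two coordinates of the same relative norm -/
theorem ABC_norm {F K : Type} [Field F] [NumberField F] [Field K] [NumberField K] [Algebra F K]
    (δ : ℤ) (j : ℕ) (m : ℤ) (hm : Odd m) (hδ : δ = 4 ^ j * m) (s : K)
    (hs : s ^ 2 = δ) (hgen : Algebra.adjoin F {s} = ⊤) (hsF : s ∉ (algebraMap F K).range) :
    ABC K (fun x => Algebra.norm F (x 0) = Algebra.norm F (x 1)) ↔ ABC F (fun _ => True) := by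
  have hneg : Algebra.norm F (-1 : K) = 1 := by
    have := norm_eq (F := F) δ s hs hgen hsF (-1) 0
    simpa using this
  rw [ABC_iff K _ (fun z => Algebra.norm F z = 1) ?_ ?_, norm_iff δ j m hm hδ s hs hgen hsF,
    ABC_iff F _ (fun _ => True) (fun _ _ _ _ => trivial) (fun _ _ _ => trivial)]
  · intro x h0 hsum hx
    have hfd : FiniteDimensional F K := Module.Finite.of_restrictScalars_finite ℚ F K
    have hx1 : Algebra.norm F (x 1) ≠ 0 := Algebra.norm_ne_zero_iff.mpr (h0 1)
    show Algebra.norm F (-x 0 / x 1) = 1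
    have e4 : Algebra.norm F (-x 0 / x 1) * Algebra.norm F (x 1) = Algebra.norm F (x 1) := by
      rw [← map_mul, div_mul_cancel₀ _ (h0 1), ← neg_one_mul, map_mul, hneg, one_mul, hx]
    exact mul_right_cancel₀ hx1 (by rw [e4, one_mul])
  · intro z _ hz
    show Algebra.norm F (-z) = Algebra.norm F (1 : K)
    rw [← neg_one_mul, map_mul, hneg, one_mul, map_one]
    exact hz

end Pool.Agent.Q245.Vl
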