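import Pool.Agent.Q245.Vl.Tri

set_option autoImplicit false
set_option maxHeartbeats 1000000

namespace Pool.Agent.Q245.Vl

open NumberField Height IsDedekindDomain IntermediateField Pool.Agent.Q245.Vk

/-- the fields isomorphic to `F` -/
def Iso (F : Type) [Field F] [NumberField F] (K : Type) [Field K] [NumberField K] : Prop :=
  Nonempty (K ≃+* F)

/-- the inequality for `0 + 1 + ∞` over `F` -/
def F0 (F : Type) [Field F] [NumberField F] (P : F → Prop) : Prop :=
  ∀ ε : ℝ, 0 < ε → ∃ C : ℝ, ∀ x : F, P x → x ≠ 0 → x ≠ 1 →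
    (1 - ε) * logHeight₁ x ≤ ∑ᶠ v ∈ S0 x, lN v + C

/-- the inequality for `∞ + {t² = δ}` over `F` -/
def Fm (F : Type) [Field F] [NumberField F] (δ : ℤ) : Prop :=
  ∀ ε : ℝ, 0 < ε → ∃ C : ℝ, ∀ t : F, t ^ 2 ≠ δ →
    (1 - ε) * logHeight₁ t ≤ ∑ᶠ v ∈ Sm δ t, lN v + C

theorem F0_iff (F : Type) [Field F] [NumberField F] : V0 (Iso F) ↔ F0 F (fun _ => True) := by
  constructor
  · intro h ε hε
    obtain ⟨C, hC⟩ := h ε hε
    refine ⟨Real.log |(discr F : ℝ)| + C * Module.finrank ℚ F, fun x _ h0 h1 => ?_⟩
    have := hC F ⟨RingEquiv.refl F⟩ x h0 h1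
    linarith
  · intro h ε hε
    obtain ⟨C, hC⟩ := h ε hε
    refine ⟨|C|, fun K _ _ hK x h0 h1 => ?_⟩
    obtain ⟨e⟩ := hK
    letI : Algebra F K := (e.symm : F →+* K).toAlgebra
    have hex : algebraMap F K (e x) = x := e.symm_apply_apply x
    have hy0 : e x ≠ 0 := (map_ne_zero e).mpr h0
    have hy1 : e x ≠ 1 := fun h => h1 (e.injective (by rw [h, map_one]))
    have a := hC (e x) trivial hy0 hy1
    have a2 := logdisc_nonneg F
    have hn : (1 : ℝ) ≤ Module.finrank ℚ F := by exact_mod_cast Module.finrank_pos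
    have a3 : (1 - ε) * logHeight₁ (e x) ≤ ∑ᶠ v ∈ S0 (e x), lN v + Real.log |(discr F : ℝ)| +
        |C| * Module.finrank ℚ F := by
      have := le_abs_self C
      nlinarith [abs_nonneg C]
    have := up (K := K) (S0 (e x)) (S0_finite hy0 hy1) (S0 x) (S0_finite h0 h1) (by
      intro v w hwv hv hw
      apply hv
      obtain ⟨a, b⟩ := hw
      rw [← hex] at a b
      constructor
      · exact (over_one v w (e x)).mp a
      · rw [← over_one (K := K) v w, map_sub, map_one]
        exact b) (e x) ε |C| a3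
    rwa [hex] at this

theorem Fm_iff (F : Type) [Field F] [NumberField F] (δ : ℤ) : Vm (Iso F) δ ↔ Fm F δ := by
  constructor
  · intro h ε hε
    obtain ⟨C, hC⟩ := h ε hε
    refine ⟨Real.log |(discr F : ℝ)| + C * Module.finrank ℚ F, fun x h0 => ?_⟩
    have := hC F ⟨RingEquiv.refl F⟩ x h0
    linarith
  · intro h ε hε
    obtain ⟨C, hC⟩ := h ε hε
    refine ⟨|C|, fun K _ _ hK x h0 => ?_⟩
    obtain ⟨e⟩ := hK
    letI : Algebra F K := (e.symm : F →+* K).toAlgebra
    have hex : algebraMap F K (e x) = x := e.symm_apply_apply x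
    have hy0 : e x ^ 2 ≠ (δ : F) := by
      intro h1
      apply h0
      rw [← hex, ← map_pow, h1, map_intCast]
    have a := hC (e x) hy0
    have a2 := logdisc_nonneg F
    have hn : (1 : ℝ) ≤ Module.finrank ℚ F := by exact_mod_cast Module.finrank_pos
    have a3 : (1 - ε) * logHeight₁ (e x) ≤ ∑ᶠ v ∈ Sm δ (e x), lN v + Real.log |(discr F : ℝ)| +
        |C| * Module.finrank ℚ F := by
      have := le_abs_self C
      nlinarith [abs_nonneg C]
    have := up (K := K) (Sm δ (e x)) (Sm_finite (sub_ne_zero.mpr hy0)) (Sm δ x)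
      (Sm_finite (sub_ne_zero.mpr h0)) (by
        intro v w hwv hv
        rcases hv with a | a
        · left
          rw [← hex]
          exact (over_gt v w _).mpr a
        · right
          have e1 : x ^ 2 - (δ : K) = algebraMap F K (e x ^ 2 - (δ : F)) := by
            rw [map_sub, map_pow, hex, map_intCast]
          rw [e1]
          exact (over_lt v w _).mpr a) (e x) ε |C| a3
    rwa [hex] at this

theorem fixed (F : Type) [Field F] [NumberField F] (δ : ℤ) (j : ℕ) (m : ℤ)
    (hm : Odd m) (hδ : δ = 4 ^ j * m) : Fm F δ ↔ F0 F (fun _ => True) := by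
  rw [← Fm_iff, ← F0_iff]
  exact main (Iso F) δ j m hm hδ

section quad

variable {F K : Type} [Field F] [NumberField F] [Field K] [NumberField K] [Algebra F K]

/-- every element of `K` is `p + q s` -/
lemma coords (δ : ℤ) (s : K) (hs : s ^ 2 = δ) (hgen : Algebra.adjoin F {s} = ⊤) (z : K) :
    ∃ p q : F, z = algebraMap F K p + algebraMap F K q * s := by
  have hz : z ∈ Algebra.adjoin F {s} := by rw [hgen]; trivial
  induction hz using Algebra.adjoin_induction with
  | mem x hx =>
    rw [Set.mem_singleton_iff] at hx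
    exact ⟨0, 1, by rw [hx]; simp⟩
  | algebraMap r => exact ⟨r, 0, by simp⟩
  | add x y _ _ hx hy =>
    obtain ⟨p, q, rfl⟩ := hx
    obtain ⟨p', q', rfl⟩ := hy
    exact ⟨p + p', q + q', by simp; ring⟩
  | mul x y _ _ hx hy =>
    obtain ⟨p, q, rfl⟩ := hx
    obtain ⟨p', q', rfl⟩ := hy
    refine ⟨p * p' + δ * q * q', p * q' + q * p', ?_⟩
    simp only [map_add, map_mul, map_intCast]
    linear_combination (algebraMap F K q * algebraMap F K q') * hs

/-- the norm -/
lemma norm_eq (δ : ℤ) (s : K) (hs : s ^ 2 = δ) (hgen : Algebra.adjoin F {s} = ⊤)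
    (hsF : s ∉ (algebraMap F K).range) (p q : F) :
    Algebra.norm F (algebraMap F K p + algebraMap F K q * s) = p ^ 2 - δ * q ^ 2 := by
  have hli : LinearIndependent F ![(1 : K), s] := by
    rw [LinearIndependent.pair_iff]
    intro a b hab
    rw [Algebra.smul_def, Algebra.smul_def, mul_one] at hab
    have hb : b = 0 := by
      by_contra hb
      apply hsF
      refine ⟨-a / b, ?_⟩
      have hb' : algebraMap F K b ≠ 0 := (map_ne_zero _).mpr hb
      rw [map_div₀, map_neg]
      field_simp
      linear_combination -hab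
    subst hb
    simp only [map_zero, zero_mul, add_zero] at hab
    exact ⟨(map_eq_zero _).mp hab, rfl⟩
  have hsp : ⊤ ≤ Submodule.span F (Set.range ![(1 : K), s]) := by
    intro z _
    obtain ⟨p, q, rfl⟩ := coords (F := F) δ s hs hgen z
    rw [Matrix.range_cons, Matrix.range_cons, Matrix.range_empty, Set.union_empty]
    refine Submodule.add_mem _ ?_ ?_
    · have := Submodule.smul_mem (Submodule.span F ({(1 : K)} ∪ {s})) p
        (Submodule.subset_span (Set.mem_union_left _ rfl))
      rwa [Algebra.smul_def, mul_one] at this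
    · have := Submodule.smul_mem (Submodule.span F ({(1 : K)} ∪ {s})) q
        (Submodule.subset_span (Set.mem_union_right _ rfl))
      rwa [Algebra.smul_def] at this
  let b : Module.Basis (Fin 2) F K := Module.Basis.mk hli hsp
  have b0 : b 0 = 1 := by simp [b]
  have b1 : b 1 = s := by simp [b]
  have hrepr : ∀ u v : F, b.repr (algebraMap F K u + algebraMap F K v * s) =
      Finsupp.single 0 u + Finsupp.single 1 v := by
    intro u v
    have : algebraMap F K u + algebraMap F K v * s = u • b 0 + v • b 1 := by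
      rw [b0, b1, Algebra.smul_def, Algebra.smul_def, mul_one]
    rw [this, map_add, map_smul, map_smul, b.repr_self, b.repr_self]
    simp
  rw [Algebra.norm_eq_matrix_det b, Matrix.det_fin_two]
  have m1 : ∀ i, Algebra.leftMulMatrix b (algebraMap F K p + algebraMap F K q * s) i 0 =
      (Finsupp.single 0 p + Finsupp.single 1 q : Fin 2 →₀ F) i := by
    intro i
    rw [Algebra.leftMulMatrix_eq_repr_mul, b0, mul_one, hrepr]
  have m2 : ∀ i, Algebra.leftMulMatrix b (algebraMap F K p + algebraMap F K q * s) i 1 =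
      (Finsupp.single 0 (δ * q) + Finsupp.single 1 p : Fin 2 →₀ F) i := by
    intro i
    rw [Algebra.leftMulMatrix_eq_repr_mul, b1]
    have : (algebraMap F K p + algebraMap F K q * s) * s =
        algebraMap F K (δ * q) + algebraMap F K p * s := by
      rw [map_mul, map_intCast]
      linear_combination (algebraMap F K q) * hs
    rw [this, hrepr]
  rw [m1, m1, m2, m2]
  simp
  ring

end quad

end Pool.Agent.Q245.Vl
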