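import Pool.Agent.Q245.Vl.Unit
import Pool.Agent.Q239.NF.Basic

set_option autoImplicit false
set_option maxHeartbeats 1000000

namespace Pool.Agent.Q245.Vl

open NumberField Height IsDedekindDomain IntermediateField Pool.Agent.Q245.Vk

/-- `log H(x)` -/
noncomputable def logH {K : Type} [Field K] [NumberField K] (x : Fin 3 → K) : ℝ :=
  Height.logHeight x / (Module.finrank ℚ K : ℝ)

/-- `log N(x)` -/
noncomputable def logN {K : Type} [Field K] [NumberField K] (x : Fin 3 → K) : ℝ :=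
  (∑ᶠ v ∈ {v : FinitePlace K | ∃ i j, v (x i) ≠ v (x j)},
    Real.log ((Ideal.absNorm v.maximalIdeal.asIdeal : ℕ) : ℝ)) / (Module.finrank ℚ K : ℝ)

/-- the logarithm of the root discriminant -/
noncomputable def logRootDisc (K : Type) [Field K] [NumberField K] : ℝ :=
  Real.log |(discr K : ℝ)| / (Module.finrank ℚ K : ℝ)

/-- the uniform abc inequality for the triples in `P` -/
def UniformABC (P : ∀ (K : Type) [Field K] [NumberField K], (Fin 3 → K) → Prop) : Prop :=
  ∀ ε : ℝ, 0 < ε → ∃ C : ℝ, ∀ (K : Type) [Field K] [NumberField K] (x : Fin 3 → K), P K x →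
    x 0 + x 1 + x 2 = 0 → (∀ i, x i ≠ 0) →
    logH x ≤ (1 + ε) * (logRootDisc K + logN x) + C

section

variable {K : Type} [Field K] [NumberField K]

/-- the matrix of `(z, 1) ↦ (-z, 1, z - 1)` -/
def MA (K : Type) [Field K] (p : Fin 3 × Fin 2) : K :=
  (![![-1, 0], ![0, 1], ![1, -1]] : Fin 3 → Fin 2 → K) p.1 p.2

lemma MA_height : logHeight (MA K) ≤ 0 := by
  have h0 : MA K ≠ 0 := by
    intro h
    have := congrFun h (1, 1)
    simp [MA] at this
  rw [Pool.Agent.Q239.NF.height_eq h0]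
  have key : ∀ v : AbsoluteValue K ℝ, ⨆ i, v (MA K i) = 1 := by
    intro v
    apply le_antisymm
    · apply ciSup_le
      rintro ⟨i, j⟩
      fin_cases i <;> fin_cases j <;> simp [MA]
    · have := le_ciSup (f := fun i => v (MA K i)) (Finite.bddAbove_range _) (1, 1)
      simpa [MA] using this
  have k1 : ∀ w : InfinitePlace K, ⨆ i, w (MA K i) = 1 := fun w => key w.1
  have k2 : ∀ w : FinitePlace K, ⨆ i, w (MA K i) = 1 := fun w => key w.1
  simp [k1, k2]

lemma tri_height (x : Fin 3 → K) (hs : x 0 + x 1 + x 2 = 0) (h0 : ∀ i, x i ≠ 0) :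
    logHeight₁ (-x 0 / x 1) ≤ logHeight x ∧
      logHeight x ≤ logHeight₁ (-x 0 / x 1) + Module.finrank ℚ K * Real.log 2 := by
  have h1 := h0 1
  set z : K := -x 0 / x 1 with hz
  have e0 : logHeight x = logHeight ((x 1)⁻¹ • x) :=
    (logHeight_smul_eq_logHeight x (inv_ne_zero h1)).symm
  have e1 : (x 1)⁻¹ • x = fun j => ∑ i, MA K (j, i) * (![z, 1] : Fin 2 → K) i := by
    funext j
    have h2 : x 2 = - x 0 - x 1 := by linear_combination hs
    fin_cases j
    · simp [MA, hz]; field_simp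
    · simp [MA, h1]
    · simp [MA, hz, h2]; field_simp; ring
  constructor
  · have h3 := logHeight_comp_le (![0, 1] : Fin 2 → Fin 3) ((x 1)⁻¹ • x)
    have h4 : ((x 1)⁻¹ • x) ∘ (![0, 1] : Fin 2 → Fin 3) = ![-z, 1] := by
      funext j
      fin_cases j
      · simp [hz]; field_simp
      · simp [h1]
    rw [h4, ← logHeight₁_eq_logHeight, logHeight₁_neg] at h3
    rw [e0]
    exact h3
  · rw [e0, e1, logHeight₁_eq_logHeight]
    have h3 := mulHeight_linearMap_apply_le (MA K) ![z, 1]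
    have h6 : ((Nat.card (Fin 2) : ℕ) : ℝ) = 2 := by simp
    rw [h6] at h3
    have hp : 0 < mulHeight (fun j => ∑ i, MA K (j, i) * (![z, 1] : Fin 2 → K) i) := mulHeight_pos _
    have h4 := Real.log_le_log hp h3
    have hp1 : 0 < mulHeight (MA K) := mulHeight_pos _
    have hp2 : 0 < mulHeight (![z, 1] : Fin 2 → K) := mulHeight_pos _
    rw [Real.log_mul (by positivity) hp2.ne', Real.log_mul (by positivity) hp1.ne', Real.log_pow]
      at h4
    have h5 := MA_height (K := K)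
    rw [logHeight_eq_log_mulHeight] at h5 ⊢
    rw [logHeight_eq_log_mulHeight]
    have hw : (totalWeight K : ℝ) = Module.finrank ℚ K := by
      exact_mod_cast totalWeight_eq_finrank (K := K)
    rw [hw] at h4
    linarith

lemma tri_bad (x : Fin 3 → K) (hs : x 0 + x 1 + x 2 = 0) (h0 : ∀ i, x i ≠ 0) :
    {v : FinitePlace K | ∃ i j, v (x i) ≠ v (x j)} = S0 (-x 0 / x 1) := by
  ext v
  have h1 : ∀ i, 0 < v (x i) := fun i => v.1.pos (h0 i)
  have e1 : 1 - -x 0 / x 1 = -x 2 / x 1 := by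
    have := h0 1
    field_simp
    linear_combination hs
  have e2 : v (-x 0 / x 1) = 1 ↔ v (x 0) = v (x 1) := by
    rw [map_div₀, fin_neg, div_eq_one_iff_eq (h1 1).ne']
  have e3 : v (1 - -x 0 / x 1) = 1 ↔ v (x 2) = v (x 1) := by
    rw [e1, map_div₀, fin_neg, div_eq_one_iff_eq (h1 1).ne']
  show (∃ i j, v (x i) ≠ v (x j)) ↔ ¬ (v (-x 0 / x 1) = 1 ∧ v (1 - -x 0 / x 1) = 1)
  rw [e2, e3, ← not_iff_not, not_not]
  push Not
  constructor
  · intro h
    exact ⟨h 0 1, h 2 1⟩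
  · rintro ⟨ha, hb⟩ i j
    fin_cases i <;> fin_cases j <;> simp [ha, hb]

end

theorem uniform_iff (P : ∀ (K : Type) [Field K] [NumberField K], (Fin 3 → K) → Prop)
    (P0 : ∀ (K : Type) [Field K] [NumberField K], K → Prop)
    (h1 : ∀ (K : Type) [Field K] [NumberField K] (x : Fin 3 → K), (∀ i, x i ≠ 0) →
      x 0 + x 1 + x 2 = 0 → P K x → P0 K (-x 0 / x 1))
    (h2 : ∀ (K : Type) [Field K] [NumberField K] (z : K), P0 K z → P K ![-z, 1, z - 1]) :
    UniformABC P ↔ UU P0 := by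
  constructor
  · intro h ε hε
    by_cases hε1 : 1 ≤ ε
    · refine ⟨0, fun K _ _ x _ _ _ => ?_⟩
      have a1 := sum_nonneg (S0 x)
      have a2 := logdisc_nonneg K
      have a3 : 0 ≤ logHeight₁ x := zero_le_logHeight₁ x
      have a4 : (1 - ε) * logHeight₁ x ≤ 0 := mul_nonpos_of_nonpos_of_nonneg (by linarith) a3
      linarith
    push Not at hε1
    obtain ⟨C, hC⟩ := h ε hε
    refine ⟨|C|, fun K _ _ z hz hz0 hz1 => ?_⟩
    have hn : (0 : ℝ) < Module.finrank ℚ K := by exact_mod_cast Module.finrank_pos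
    have hne : ∀ i, (![-z, 1, z - 1] : Fin 3 → K) i ≠ 0 := by
      intro i
      fin_cases i
      · simpa using hz0
      · simp
      · simpa using sub_ne_zero.mpr hz1
    have hsum : (![-z, 1, z - 1] : Fin 3 → K) 0 + (![-z, 1, z - 1] : Fin 3 → K) 1 +
        (![-z, 1, z - 1] : Fin 3 → K) 2 = 0 := by
      simp
    have hz' : -(![-z, 1, z - 1] : Fin 3 → K) 0 / (![-z, 1, z - 1] : Fin 3 → K) 1 = z := by simp
    have a := hC K ![-z, 1, z - 1] (h2 K z hz) hsum hne
    have b := tri_height _ hsum hne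
    unfold logH logN logRootDisc at a
    rw [tri_bad _ hsum hne, hz'] at a
    rw [hz'] at b
    rw [div_le_iff₀ hn] at a
    have e : ((1 + ε) * (Real.log |(discr K : ℝ)| / (Module.finrank ℚ K : ℝ) +
        (∑ᶠ v ∈ S0 z, Real.log ((Ideal.absNorm v.maximalIdeal.asIdeal : ℕ) : ℝ)) /
          (Module.finrank ℚ K : ℝ)) + C) * (Module.finrank ℚ K : ℝ) =
        (1 + ε) * (Real.log |(discr K : ℝ)| + ∑ᶠ v ∈ S0 z, lN v) + C * Module.finrank ℚ K := by
      unfold lN
      field_simp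
    rw [e] at a
    have a1 := sum_nonneg (S0 z)
    have a2 := logdisc_nonneg K
    have a3 : logHeight₁ z ≤ (1 + ε) * (Real.log |(discr K : ℝ)| + ∑ᶠ v ∈ S0 z, lN v)
        + C * Module.finrank ℚ K := b.1.trans a
    have a4 := mul_le_mul_of_nonneg_left a3 (show 0 ≤ 1 - ε by linarith)
    have a5 : (1 - ε) * ((1 + ε) * (Real.log |(discr K : ℝ)| + ∑ᶠ v ∈ S0 z, lN v)) ≤
        Real.log |(discr K : ℝ)| + ∑ᶠ v ∈ S0 z, lN v := by
      nlinarith [mul_nonneg (sq_nonneg ε) (add_nonneg a2 a1)]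
    have a6 : (1 - ε) * (C * Module.finrank ℚ K) ≤ |C| * Module.finrank ℚ K := by
      have : (1 - ε) * C ≤ |C| := by
        have := le_abs_self C
        have := neg_abs_le C
        nlinarith [abs_nonneg C]
      nlinarith
    linarith
  · intro h ε hε
    set ε' : ℝ := ε / (1 + ε) with hε'
    have hpos : 0 < 1 + ε := by linarith
    obtain ⟨C, hC⟩ := h ε' (by positivity)
    refine ⟨(1 + ε) * C + Real.log 2, fun K _ _ x hx hs h0 => ?_⟩
    have hn : (0 : ℝ) < Module.finrank ℚ K := by exact_mod_cast Module.finrank_pos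
    have b := tri_height x hs h0
    have hz0 : -x 0 / x 1 ≠ 0 := div_ne_zero (neg_ne_zero.mpr (h0 0)) (h0 1)
    have hz1 : -x 0 / x 1 ≠ 1 := by
      intro hh
      rw [div_eq_one_iff_eq (h0 1)] at hh
      apply h0 2
      linear_combination hs + hh
    have a := hC K (-x 0 / x 1) (h1 K x h0 hs hx) hz0 hz1
    unfold logH logN logRootDisc
    rw [tri_bad x hs h0, div_le_iff₀ hn]
    have e : ((1 + ε) * (Real.log |(discr K : ℝ)| / (Module.finrank ℚ K : ℝ) +
        (∑ᶠ v ∈ S0 (-x 0 / x 1), Real.log ((Ideal.absNorm v.maximalIdeal.asIdeal : ℕ) : ℝ)) /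
          (Module.finrank ℚ K : ℝ)) + ((1 + ε) * C + Real.log 2)) * (Module.finrank ℚ K : ℝ) =
        (1 + ε) * (Real.log |(discr K : ℝ)| + ∑ᶠ v ∈ S0 (-x 0 / x 1), lN v
          + C * Module.finrank ℚ K) + Module.finrank ℚ K * Real.log 2 := by
      unfold lN
      field_simp
      ring
    rw [e]
    have e2 : 1 - ε' = 1 / (1 + ε) := by rw [hε']; field_simp; ring
    rw [e2, div_mul_eq_mul_div, one_mul, div_le_iff₀ hpos] at a
    linarith [b.2]

theorem main_uniform :
    UniformABC (fun K _ _ _ => TR K) ↔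
      UniformABC (fun K _ _ x => ∀ τ : K →+* ℂ, ‖τ (x 0)‖ = ‖τ (x 1)‖) := by
  rw [uniform_iff (fun K _ _ _ => TR K) (fun K _ _ _ => TR K) (fun K _ _ x _ _ h => h)
    (fun K _ _ z h => h)]
  rw [uniform_iff (fun K _ _ x => ∀ τ : K →+* ℂ, ‖τ (x 0)‖ = ‖τ (x 1)‖) OnCircle ?_ ?_]
  · have e : UU (fun K _ _ _ => TR K) ↔ V0 TR := by
      constructor
      · intro h ε hε
        obtain ⟨C, hC⟩ := h ε hε
        exact ⟨C, fun K _ _ hK x h0 h1 => hC K x hK h0 h1⟩
      · intro h ε hε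
        obtain ⟨C, hC⟩ := h ε hε
        exact ⟨C, fun K _ _ x hK h0 h1 => hC K hK x h0 h1⟩
    exact e.trans circle_iff.symm
  · intro K _ _ x h0 hs hx τ
    rw [map_div₀, map_neg, norm_div, norm_neg, hx τ, div_self]
    exact norm_ne_zero_iff.mpr ((map_ne_zero τ).mpr (h0 1))
  · intro K _ _ z hz τ
    simpa using hz τ

end Pool.Agent.Q245.Vl
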