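import Pool.Agent.Q245.Vl.Main

set_option autoImplicit false
set_option maxHeartbeats 1000000

namespace Pool.Agent.Q245.Vl

open NumberField Height IsDedekindDomain IntermediateField Pool.Agent.Q245.Vk

/-- the inequality for `0 + 1 + ∞` and the points in `P`, not normalised -/
def UU (P : ∀ (K : Type) [Field K] [NumberField K], K → Prop) : Prop :=
  ∀ ε : ℝ, 0 < ε → ∃ C : ℝ, ∀ (K : Type) [Field K] [NumberField K] (x : K), P K x →
    x ≠ 0 → x ≠ 1 →
    (1 - ε) * logHeight₁ x ≤ ∑ᶠ v ∈ S0 x, lN v + Real.log |(discr K : ℝ)|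
      + C * Module.finrank ℚ K

/-- all conjugates on the unit circle -/
def OnCircle (K : Type) [Field K] [NumberField K] (x : K) : Prop := ∀ τ : K →+* ℂ, ‖τ x‖ = 1

/-- totally real -/
def TR (K : Type) [Field K] [NumberField K] : Prop := ∀ (τ : K →+* ℂ) (y : K), star (τ y) = τ y

lemma adjoin_top {L : Type} [Field L] [NumberField L] (i : AlgebraicClosure L)
    (hi : i ^ 2 = -1) : ∃ (_ : NumberField L⟮i⟯), (AdjoinSimple.gen L i) ^ 2 = ((-1 : ℤ) : L⟮i⟯) ∧
      Algebra.adjoin L {AdjoinSimple.gen L i} = ⊤ := by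
  have hint : IsIntegral L i := Algebra.IsIntegral.isIntegral i
  haveI : FiniteDimensional L L⟮i⟯ := adjoin.finiteDimensional hint
  haveI : NumberField L⟮i⟯ := NumberField.of_module_finite L L⟮i⟯
  refine ⟨inferInstance, ?_, ?_⟩
  · apply Subtype.ext
    push_cast
    simpa using hi
  · have := (adjoin.powerBasis hint).adjoin_gen_eq_top
    rwa [adjoin.powerBasis_gen] at this

lemma conj_of_sq {a : ℂ} (h : a ^ 2 = -1) : star a = -a ∧ ‖a‖ = 1 := by
  have h1 : a = Complex.I ∨ a = -Complex.I := by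
    apply sq_eq_sq_iff_eq_or_eq_neg.mp
    rw [h, Complex.I_sq]
  rcases h1 with rfl | rfl <;> simp

lemma circle_of_real {a b : ℂ} (ha : star a = a) (hb : b ^ 2 = -1) (hne : a - b ≠ 0) :
    ‖(a + b) / (a - b)‖ = 1 := by
  have h1 : star (a - b) = a + b := by
    rw [star_sub, ha, (conj_of_sq hb).1, sub_neg_eq_add]
  rw [norm_div, ← h1, norm_star, div_self (norm_ne_zero_iff.mpr hne)]

lemma real_of_circle {w b : ℂ} (hw : ‖w‖ = 1) (hb : b ^ 2 = -1) :
    star (b * (w + 1) / (w - 1)) = b * (w + 1) / (w - 1) := by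
  have hw0 : w ≠ 0 := by
    rintro rfl
    simp at hw
  have h1 : star w = w⁻¹ := by
    have : star w * w = 1 := by
      rw [Complex.star_def, ← Complex.normSq_eq_conj_mul_self, Complex.normSq_eq_norm_sq, hw]
      norm_num
    exact eq_inv_of_mul_eq_one_left this
  rw [star_div₀, star_mul', star_add, star_sub, star_one, h1, (conj_of_sq hb).1]
  by_cases hw1 : w = 1
  · subst hw1
    simp
  · have h2 : w - 1 ≠ 0 := sub_ne_zero.mpr hw1
    have h3 : w⁻¹ - 1 ≠ 0 := by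
      intro h
      apply hw1
      have : w⁻¹ = 1 := sub_eq_zero.mp h
      exact inv_eq_one.mp this
    rw [div_eq_div_iff h3 h2]
    field_simp
    ring

lemma extend {F E : Type} [Field F] [NumberField F] [Field E] [NumberField E] [Algebra F E]
    (φ : F →+* ℂ) : ∃ ψ : E →+* ℂ, ∀ u, ψ (algebraMap F E u) = φ u := by
  letI := φ.toAlgebra
  haveI : Module.Finite F E := Module.Finite.of_restrictScalars_finite ℚ F E
  haveI : Algebra.IsAlgebraic F E := Algebra.IsAlgebraic.of_finite F E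
  let ψ : E →ₐ[F] ℂ := IsAlgClosed.lift
  exact ⟨ψ, fun u => ψ.commutes u⟩

theorem Vm_of_circle (h : UU OnCircle) : Vm TR (-1) := by
  intro ε hε
  by_cases hε1 : 1 ≤ ε
  · refine ⟨0, fun K _ _ _ t _ => ?_⟩
    have a1 := sum_nonneg (Sm (-1) t)
    have a2 := logdisc_nonneg K
    have a3 : 0 ≤ logHeight₁ t := zero_le_logHeight₁ t
    have a4 : (1 - ε) * logHeight₁ t ≤ 0 := mul_nonpos_of_nonpos_of_nonneg (by linarith) a3
    linarith
  push Not at hε1
  obtain ⟨C, hC⟩ := h ε hε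
  refine ⟨(C + 3 * Real.log 2 + Real.log |((-1 : ℤ) : ℝ)| +
    Real.log (2 * (-1 : ℤ).natAbs : ℕ)) + Real.log (4 * (-1 : ℤ).natAbs), ?_⟩
  intro K _ _ hK t ht
  obtain ⟨i, hi⟩ := IsAlgClosed.exists_pow_nat_eq (-1 : AlgebraicClosure K) (n := 2) (by norm_num)
  obtain ⟨hnf, hs, hgen⟩ := adjoin_top i hi
  set s : K⟮i⟯ := AdjoinSimple.gen K i with hsdef
  set t' : K⟮i⟯ := algebraMap K K⟮i⟯ t with ht'
  have ht2 : t' ^ 2 ≠ ((-1 : ℤ) : K⟮i⟯) := by
    intro h0
    apply ht
    apply (algebraMap K K⟮i⟯).injective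
    rw [map_pow, ← ht', h0, map_intCast]
  have hne : t' - s ≠ 0 := by
    intro h0
    apply ht2
    rw [sub_eq_zero.mp h0, hs]
  have hne' : t' + s ≠ 0 := by
    intro h0
    apply ht2
    rw [eq_neg_of_add_eq_zero_left h0, neg_sq, hs]
  have hs0 : s ≠ 0 := by
    intro h0
    rw [h0] at hs
    norm_num at hs
  have hx0 : (t' + s) / (t' - s) ≠ 0 := div_ne_zero hne' hne
  have hx1 : (t' + s) / (t' - s) ≠ 1 := by
    intro h0
    rw [div_eq_one_iff_eq hne] at h0
    have : 2 * s = 0 := by linear_combination h0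
    rcases mul_eq_zero.mp this with h1 | h1
    · exact two_ne_zero h1
    · exact hs0 h1
  have hcirc : OnCircle K⟮i⟯ ((t' + s) / (t' - s)) := by
    intro τ
    have e1 : star (τ t') = τ t' := hK (τ.comp (algebraMap K K⟮i⟯)) t
    have e2 : τ s ^ 2 = -1 := by
      rw [← map_pow, hs, map_intCast]; norm_num
    rw [map_div₀, map_add, map_sub]
    apply circle_of_real e1 e2
    rw [← map_sub]
    exact (map_ne_zero τ).mpr hne
  have h1 := hC K⟮i⟯ _ hcirc hx0 hx1
  have h2 := to_t (-1) (by norm_num) s t' hs ht2 ε C hε hε1 h1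
  have h3 := down (-1) (by norm_num) s hs hgen (Sm (-1) t) (Sm_finite (sub_ne_zero.mpr ht))
    (Sm (-1) t') (by
      intro v w hwv hv
      rcases hv with a | a
      · left
        exact (over_gt v w t).mp a
      · right
        have e : t' ^ 2 - (((-1 : ℤ)) : K⟮i⟯) = algebraMap K K⟮i⟯ (t ^ 2 - ((-1 : ℤ) : K)) := by
          rw [map_sub, map_pow, map_intCast]
        rw [e] at a
        exact (over_lt v w _).mp a) t ε _ h2
  exact h3

theorem circle_of_Vm (h : Vm TR (-1)) : UU OnCircle := by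
  intro ε hε
  by_cases hε1 : 1 ≤ ε
  · refine ⟨0, fun K _ _ x _ _ _ => ?_⟩
    have a1 := sum_nonneg (S0 x)
    have a2 := logdisc_nonneg K
    have a3 : 0 ≤ logHeight₁ x := zero_le_logHeight₁ x
    have a4 : (1 - ε) * logHeight₁ x ≤ 0 := mul_nonpos_of_nonpos_of_nonneg (by linarith) a3
    linarith
  push Not at hε1
  obtain ⟨C, hC⟩ := h ε hε
  refine ⟨(C + 3 * Real.log 2 + Real.log |((-1 : ℤ) : ℝ)| +
    Real.log (2 * (-1 : ℤ).natAbs : ℕ)) + Real.log (4 * (-1 : ℤ).natAbs), ?_⟩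
  intro L _ _ z hz hz0 hz1
  obtain ⟨i, hi⟩ := IsAlgClosed.exists_pow_nat_eq (-1 : AlgebraicClosure L) (n := 2) (by norm_num)
  obtain ⟨hnf, hs, hgen⟩ := adjoin_top i hi
  set s : L⟮i⟯ := AdjoinSimple.gen L i with hsdef
  set z' : L⟮i⟯ := algebraMap L L⟮i⟯ z with hz'
  have hz'0 : z' ≠ 0 := (map_ne_zero _).mpr hz0
  have hz'1 : z' ≠ 1 := by
    intro h0
    apply hz1
    apply (algebraMap L L⟮i⟯).injective
    rw [← hz', h0, map_one]
  have hz'1' : z' - 1 ≠ 0 := sub_ne_zero.mpr hz'1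
  have hs0 : s ≠ 0 := by
    intro h0
    rw [h0] at hs
    norm_num at hs
  set t : L⟮i⟯ := s * (z' + 1) / (z' - 1) with ht
  have hts : t - s = 2 * s / (z' - 1) := by
    rw [ht]; field_simp; ring
  have hts' : t + s = 2 * s * z' / (z' - 1) := by
    rw [ht]; field_simp; ring
  have hts0 : t - s ≠ 0 := by
    rw [hts]; exact div_ne_zero (mul_ne_zero two_ne_zero hs0) hz'1'
  have hts'0 : t + s ≠ 0 := by
    rw [hts']; exact div_ne_zero (mul_ne_zero (mul_ne_zero two_ne_zero hs0) hz'0) hz'1'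
  have hzt : (t + s) / (t - s) = z' := by
    rw [hts, hts']
    field_simp
  have ht2 : t ^ 2 ≠ ((-1 : ℤ) : L⟮i⟯) := by
    intro h0
    have : (t - s) * (t + s) = 0 := by
      rw [← hs] at h0
      linear_combination h0
    rcases mul_eq_zero.mp this with h1 | h1
    · exact hts0 h1
    · exact hts'0 h1
  -- the field generated by `t`
  haveI : NumberField ℚ⟮t⟯ := ⟨⟩
  set g : ℚ⟮t⟯ := AdjoinSimple.gen ℚ t with hg
  have hgt : algebraMap ℚ⟮t⟯ L⟮i⟯ g = t := AdjoinSimple.coe_gen ℚ t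
  have htr : TR ℚ⟮t⟯ := by
    intro φ y
    have hint : IsIntegral ℚ t := Algebra.IsIntegral.isIntegral t
    obtain ⟨ψ, hψ⟩ := extend (F := ℚ⟮t⟯) (E := L⟮i⟯) φ
    have e0 : φ g = ψ t := by rw [← hψ g, hgt]
    have e0' : ψ t = ψ s * (ψ z' + 1) / (ψ z' - 1) := by
      show ψ (s * (z' + 1) / (z' - 1)) = _
      rw [map_div₀, map_mul, map_add, map_sub, map_one]
    have e1 : star (φ g) = φ g := by
      rw [e0, e0']
      apply real_of_circle
      · exact hz (ψ.comp (algebraMap L L⟮i⟯))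
      · rw [← map_pow, hs, map_intCast]; norm_num
    -- two homomorphisms
    let f1 : ℚ⟮t⟯ →ₐ[ℚ] ℂ := φ.toRatAlgHom
    let f2 : ℚ⟮t⟯ →ₐ[ℚ] ℂ := ((starRingEnd ℂ).comp φ).toRatAlgHom
    have hf : f2 = f1 := by
      apply (adjoin.powerBasis hint).algHom_ext
      rw [adjoin.powerBasis_gen]
      exact e1
    have := congrArg (fun f : ℚ⟮t⟯ →ₐ[ℚ] ℂ => f y) hf
    exact this
  have hg2 : g ^ 2 ≠ ((-1 : ℤ) : ℚ⟮t⟯) := by
    intro h0
    apply ht2
    rw [← hgt, ← map_pow, h0, map_intCast]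
  have h1 := hC ℚ⟮t⟯ htr g hg2
  have h2 := up (K := L⟮i⟯) (Sm (-1) g) (Sm_finite (sub_ne_zero.mpr hg2)) (Sm (-1) t)
    (Sm_finite (sub_ne_zero.mpr ht2)) (by
      intro v w hwv hv
      rcases hv with a | a
      · left
        rw [← hgt]
        exact (over_gt v w g).mpr a
      · right
        have e : t ^ 2 - ((-1 : ℤ) : L⟮i⟯) =
            algebraMap ℚ⟮t⟯ L⟮i⟯ (g ^ 2 - ((-1 : ℤ) : ℚ⟮t⟯)) := by
          rw [map_sub, map_pow, hgt, map_intCast]
        rw [e]
        exact (over_lt v w _).mpr a) g ε C h1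
  rw [hgt] at h2
  have h3 := to_x (-1) (by norm_num) s t hs ht2 (by rw [hzt]; exact hz'0)
    (by rw [hzt]; exact hz'1) ε C hε hε1 h2
  rw [hzt] at h3
  exact down (-1) (by norm_num) s hs hgen (S0 z) (S0_finite hz0 hz1) (S0 z') (by
    intro v w hwv hv hw
    apply hv
    obtain ⟨a, b⟩ := hw
    constructor
    · exact (over_one v w z).mpr a
    · have e : (1 : L⟮i⟯) - z' = algebraMap L L⟮i⟯ (1 - z) := by rw [map_sub, map_one]
      rw [e]
      exact (over_one v w _).mpr b) z ε _ h3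

theorem circle_iff : UU OnCircle ↔ V0 TR := by
  have h := main TR (-1) 0 (-1) (by decide) (by norm_num)
  exact ⟨fun H => h.mp (Vm_of_circle H), fun H => circle_of_Vm (h.mpr H)⟩

end Pool.Agent.Q245.Vl
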