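import Pool.Agent.Q245.Vk.Exact

set_option autoImplicit false
set_option maxHeartbeats 1000000

namespace Pool.Agent.Q245.Vl

open NumberField Height IsDedekindDomain Pool.Agent.Q245.Vk

variable {F K : Type} [Field F] [NumberField F] [Field K] [NumberField K] [Algebra F K]

/-- upper bound for the truncated counting function in an extension -/
theorem sum_up (S : Set (FinitePlace F)) (hS : S.Finite) (T : Set (FinitePlace K))
    (hST : ∀ (v : HeightOneSpectrum (𝓞 F)) (w : HeightOneSpectrum (𝓞 K)),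
      w.asIdeal.LiesOver v.asIdeal → FinitePlace.mk w ∈ T → FinitePlace.mk v ∈ S) :
    T.Finite ∧ ∑ᶠ w ∈ T, lN w ≤ (Module.finrank F K : ℝ) * ∑ᶠ v ∈ S, lN v := by
  classical
  set V : Finset (HeightOneSpectrum (𝓞 F)) := hS.toFinset.image FinitePlace.maximalIdeal with hV
  have hmax : ∀ v : HeightOneSpectrum (𝓞 F), v.asIdeal.IsMaximal := fun v => v.isMaximal
  let I : HeightOneSpectrum (𝓞 F) → Finset (Ideal (𝓞 K)) := fun v =>
    (v.asIdeal.primesOver (𝓞 K)).toFinset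
  have hI : ∀ v Q, Q ∈ I v ↔ Q.IsPrime ∧ Q.LiesOver v.asIdeal := by
    intro v Q
    show Q ∈ (v.asIdeal.primesOver (𝓞 K)).toFinset ↔ _
    rw [Set.mem_toFinset]
    rfl
  have hbot : ∀ v Q, Q ∈ I v → Q ≠ ⊥ := by
    intro v Q hQ
    obtain ⟨h1, h2⟩ := (hI v Q).1 hQ
    exact Ideal.ne_bot_of_liesOver_of_ne_bot v.ne_bot Q
  have hdisj : ∀ v ∈ V, ∀ v' ∈ V, v ≠ v' → Disjoint (I v) (I v') := by
    intro v _ v' _ hvv
    rw [Finset.disjoint_left]
    intro Q hQ hQ'
    have h1 := ((hI v Q).1 hQ).2.over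
    have h2 := ((hI v' Q).1 hQ').2.over
    exact hvv (HeightOneSpectrum.ext (h1.trans h2.symm))
  set Z := V.biUnion I with hZ
  have hlog0 : ∀ Q : Ideal (𝓞 K), 0 ≤ Real.log (Ideal.absNorm Q) := fun Q =>
    Real.log_natCast_nonneg _
  have hmap : ∀ v : HeightOneSpectrum (𝓞 F), Ideal.map (algebraMap (𝓞 F) (𝓞 K)) v.asIdeal =
      ∏ Q ∈ I v, Q ^ Q.ramificationIdx (𝓞 F) := by
    intro v
    have := hmax v
    exact Ideal.map_algebraMap_eq_finsetProd_pow v.ne_bot
  have hfr : Module.finrank (𝓞 F) (𝓞 K) = Module.finrank F K :=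
    (IsFractionRing.finrank_eq (𝓞 F) F (𝓞 K) K).symm
  have s2 : ∀ v : HeightOneSpectrum (𝓞 F),
      (Module.finrank F K : ℝ) * Real.log (Ideal.absNorm v.asIdeal) =
      ∑ Q ∈ I v, (Q.ramificationIdx (𝓞 F) : ℝ) * Real.log (Ideal.absNorm Q) := by
    intro v
    have h1 := Ideal.absNorm_algebraMap (𝓞 F) (𝓞 K) v.asIdeal
    rw [hmap v, map_prod, hfr] at h1
    have h2 : (∏ Q ∈ I v, ((Ideal.absNorm Q : ℝ)) ^ Q.ramificationIdx (𝓞 F)) =
        (Ideal.absNorm v.asIdeal : ℝ) ^ Module.finrank F K := by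
      have h3 := congrArg (fun n : ℕ => (n : ℝ)) h1
      simp only [Nat.cast_prod, Nat.cast_pow, map_pow] at h3
      exact h3
    rw [← Real.log_pow, ← h2, Real.log_prod]
    · refine Finset.sum_congr rfl fun Q _ => ?_
      rw [Real.log_pow]
    · intro Q hQ
      refine pow_ne_zero _ ?_
      rw [Nat.cast_ne_zero]
      exact Ideal.absNorm_eq_zero_iff.not.2 (hbot v Q hQ)
  have s3 : (Module.finrank F K : ℝ) * ∑ v ∈ V, Real.log (Ideal.absNorm v.asIdeal) =
      ∑ Q ∈ Z, (Q.ramificationIdx (𝓞 F) : ℝ) * Real.log (Ideal.absNorm Q) := by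
    rw [Finset.mul_sum, hZ, Finset.sum_biUnion hdisj]
    exact Finset.sum_congr rfl fun v _ => s2 v
  have h1 : ∑ v ∈ V, Real.log (Ideal.absNorm v.asIdeal) = ∑ᶠ v ∈ S, lN v := by
    rw [hV, finsum_mem_eq_finite_toFinset_sum _ hS, Finset.sum_image]
    · rfl
    · intro a _ b _ hab
      exact FinitePlace.maximalIdeal_injective hab
  have hmem : ∀ w ∈ T, w.maximalIdeal.asIdeal ∈ Z := by
    intro w hw
    rw [hZ, Finset.mem_biUnion]
    set v : HeightOneSpectrum (𝓞 F) := w.maximalIdeal.under (𝓞 F) with hv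
    haveI hlo : w.maximalIdeal.asIdeal.LiesOver v.asIdeal := ⟨rfl⟩
    have h2 := hST v w.maximalIdeal hlo (by rwa [FinitePlace.mk_maximalIdeal])
    refine ⟨v, ?_, (hI v _).mpr ⟨w.maximalIdeal.isPrime, hlo⟩⟩
    rw [hV, Finset.mem_image]
    refine ⟨FinitePlace.mk v, hS.mem_toFinset.mpr h2, ?_⟩
    rw [FinitePlace.maximalIdeal_mk]
  have hinj : Function.Injective (fun w : FinitePlace K => w.maximalIdeal.asIdeal) := by
    intro a b hab
    exact FinitePlace.maximalIdeal_injective (HeightOneSpectrum.ext hab)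
  have hTfin : T.Finite := by
    refine Set.Finite.of_finite_image (f := fun w : FinitePlace K => w.maximalIdeal.asIdeal)
      (Z.finite_toSet.subset ?_) hinj.injOn
    rintro _ ⟨w, hw, rfl⟩
    exact hmem w hw
  refine ⟨hTfin, ?_⟩
  have h2 : ∑ᶠ w ∈ T, lN w ≤ ∑ Q ∈ Z, Real.log (Ideal.absNorm Q) := by
    rw [finsum_mem_eq_finite_toFinset_sum _ hTfin]
    have h3 : ∑ w ∈ hTfin.toFinset, lN w = ∑ Q ∈ hTfin.toFinset.image
        (fun w : FinitePlace K => w.maximalIdeal.asIdeal), Real.log (Ideal.absNorm Q) := by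
      rw [Finset.sum_image (hinj.injOn)]
      rfl
    rw [h3]
    refine Finset.sum_le_sum_of_subset_of_nonneg ?_ fun Q _ _ => hlog0 Q
    intro Q hQ
    rw [Finset.mem_image] at hQ
    obtain ⟨w, hw, rfl⟩ := hQ
    exact hmem w (hTfin.mem_toFinset.mp hw)
  rw [← h1, s3]
  refine h2.trans (Finset.sum_le_sum fun Q hQ => ?_)
  have he : (1 : ℝ) ≤ (Q.ramificationIdx (𝓞 F) : ℝ) := by
    rw [hZ, Finset.mem_biUnion] at hQ
    obtain ⟨v, -, hQ⟩ := hQ
    obtain ⟨h5, h6⟩ := (hI v Q).1 hQ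
    have h7 : 0 < Q.ramificationIdx (𝓞 F) := Ideal.ramificationIdx_pos Q (𝓞 F)
    exact_mod_cast h7
  have := mul_le_mul_of_nonneg_right he (hlog0 Q)
  linarith

/-- upper bound for the discriminant of `K = F(s)`, `s² = δ` -/
theorem disc_up (δ : ℤ) (hδ : δ ≠ 0) (s : K) (hs : s ^ 2 = δ) (hgen : Algebra.adjoin F {s} = ⊤) :
    Real.log |(discr K : ℝ)| ≤ (Module.finrank F K : ℝ) * Real.log |(discr F : ℝ)| +
      Module.finrank ℚ K * Real.log (4 * δ.natAbs) := by
  have hdisc := NumberField.natAbs_discr_eq_absNorm_differentIdeal_mul_natAbs_discr_pow F (𝓞 F) K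
    (𝓞 K)
  have hdiff0 : Ideal.absNorm (differentIdeal (𝓞 F) (𝓞 K)) ≠ 0 := by
    intro h
    rw [h, zero_mul] at hdisc
    exact NumberField.discr_ne_zero K (Int.natAbs_eq_zero.1 hdisc)
  have s5 : Real.log |(discr K : ℝ)| = Real.log (Ideal.absNorm (differentIdeal (𝓞 F) (𝓞 K))) +
      Module.finrank F K * Real.log |(discr F : ℝ)| := by
    have e1 : |(discr K : ℝ)| = ((discr K).natAbs : ℝ) := by
      rw [← Int.cast_abs, Int.abs_eq_natAbs]
      simp
    have e2 : |(discr F : ℝ)| = ((discr F).natAbs : ℝ) := by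
      rw [← Int.cast_abs, Int.abs_eq_natAbs]
      simp
    rw [e1, e2, hdisc]
    push_cast
    rw [Real.log_mul (by exact_mod_cast hdiff0) ?_, Real.log_pow]
    refine pow_ne_zero _ ?_
    have := NumberField.discr_ne_zero F
    exact_mod_cast Int.natAbs_ne_zero.2 this
  have hsi : IsIntegral ℤ s := by
    apply IsIntegral.of_pow (n := 2) (by norm_num)
    rw [hs]
    simpa using (isIntegral_algebraMap (R := ℤ) (A := K) (x := δ))
  set σ : 𝓞 K := ⟨s, hsi⟩ with hσ
  have hσs : algebraMap (𝓞 K) K σ = s := rfl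
  have hσ2 : σ ^ 2 = (δ : 𝓞 K) := by
    apply RingOfIntegers.ext
    show algebraMap (𝓞 K) K (σ ^ 2) = algebraMap (𝓞 K) K (δ : 𝓞 K)
    rw [map_pow, hσs, map_intCast]
    exact hs
  have hmem := aeval_derivative_mem_differentIdeal (𝓞 F) F K σ (by rw [hσs]; exact hgen)
  have hint : IsIntegral (𝓞 F) σ := Algebra.IsIntegral.isIntegral σ
  have hdvd : minpoly (𝓞 F) σ ∣ Polynomial.X ^ 2 - Polynomial.C (δ : 𝓞 F) := by
    apply minpoly.isIntegrallyClosed_dvd hint
    simp [hσ2]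
  have hmem2 : 2 * σ ∈ differentIdeal (𝓞 F) (𝓞 K) := by
    obtain ⟨q, hq⟩ := hdvd
    have h1 := congrArg (fun p => Polynomial.aeval σ (Polynomial.derivative p)) hq
    simp only [Polynomial.derivative_mul, map_add, map_mul, minpoly.aeval, zero_mul, add_zero] at h1
    have h2 : Polynomial.aeval σ (Polynomial.derivative
        (Polynomial.X ^ 2 - Polynomial.C (δ : 𝓞 F))) = 2 * σ := by
      simp
      left
      norm_num
    rw [h2] at h1
    rw [h1]
    exact Ideal.mul_mem_right _ _ hmem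
  have hmem3 : ((4 * δ : ℤ) : 𝓞 K) ∈ differentIdeal (𝓞 F) (𝓞 K) := by
    have : ((4 * δ : ℤ) : 𝓞 K) = (2 * σ) * (2 * σ) := by
      push_cast
      rw [← hσ2]; ring
    rw [this]
    exact Ideal.mul_mem_left _ _ hmem2
  have hle : Real.log (Ideal.absNorm (differentIdeal (𝓞 F) (𝓞 K))) ≤
      Module.finrank ℚ K * Real.log (4 * δ.natAbs) := by
    have h1 : Ideal.span {((4 * δ : ℤ) : 𝓞 K)} ≤ differentIdeal (𝓞 F) (𝓞 K) := by
      rwa [Ideal.span_singleton_le_iff_mem]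
    have h2 := Ideal.absNorm_dvd_absNorm_of_le h1
    rw [Ideal.absNorm_span_singleton] at h2
    have h3 : Algebra.norm ℤ ((4 * δ : ℤ) : 𝓞 K) = (4 * δ) ^ Module.finrank ℤ (𝓞 K) := by
      have := Algebra.norm_algebraMap (R := ℤ) (S := 𝓞 K) (4 * δ)
      rw [← this]
      congr 1
    rw [h3, Int.natAbs_pow, RingOfIntegers.rank] at h2
    have h4 := Nat.le_of_dvd (pow_pos (Int.natAbs_pos.mpr (by positivity)) _) h2
    have h5 : Real.log (Ideal.absNorm (differentIdeal (𝓞 F) (𝓞 K))) ≤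
        Real.log (((4 * δ).natAbs ^ Module.finrank ℚ K : ℕ) : ℝ) :=
      Real.log_le_log (by exact_mod_cast Nat.pos_of_ne_zero hdiff0) (by exact_mod_cast h4)
    refine h5.trans (le_of_eq ?_)
    rw [Nat.cast_pow, Real.log_pow, Int.natAbs_mul]
    norm_num
  rw [s5]
  linarith

end Pool.Agent.Q245.Vl
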